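import Pool.Agent.Helper5.ST.GoalsB

/-!
Packet SEL: a lazy symmetric walk supported in the ball of radius one, with few generators.
-/

namespace Pool.Agent.Helper47.ST

open Pool.Agent.Helper5.Gap Pool.Agent.Helper5.ST

universe u

variable {G : Type u} [Group G]

/-- The subgroup generated by the members of a list. -/
def cl (l : List G) : Subgroup G := Subgroup.closure {x | x ∈ l}

theorem cl_mono {l l' : List G} (h : ∀ x ∈ l, x ∈ l') : cl l ≤ cl l' :=
  Subgroup.closure_mono (fun x hx => h x hx)

theorem mem_cl {l : List G} {x : G} (h : x ∈ l) : x ∈ cl l := Subgroup.subset_closure h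

theorem exists_short_list (X : Set G) (hX : X.Finite) (hc : Subgroup.closure X = ⊤) (K : ℕ)
    (hg : growth X K < 2 ^ K) : ∃ l : List G, (∀ x ∈ l, x ∈ X) ∧ cl l = ⊤ ∧ l.length < K := by
  classical
  have hex : ∃ n : ℕ, ∃ l : List G, (∀ x ∈ l, x ∈ X) ∧ cl l = ⊤ ∧ l.length = n := by
    refine ⟨_, hX.toFinset.toList, by simp, ?_, rfl⟩
    unfold cl
    simpa using hc
  obtain ⟨l, hlX, hlc, hln⟩ := Nat.find_spec hex
  have hmin : ∀ l' : List G, (∀ x ∈ l', x ∈ X) → cl l' = ⊤ → l.length ≤ l'.length := by
    intro l' h1 h2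
    rw [hln]
    exact Nat.find_min' hex ⟨l', h1, h2, rfl⟩
  have key : ∀ t : List G, (∃ s, l = s ++ t) → Lev X 1 (cl t) ⊥ t.length := by
    intro t
    induction t with
    | nil => intro _; exact .zero bot_le
    | cons a t ih =>
      rintro ⟨s, hs⟩
      have haX : a ∈ X := hlX a (by rw [hs]; simp)
      refine .step (B := cl t) (a := a) (cl_mono (fun x hx => by simp [hx])) (mem_cl (by simp)) ?_
        (mem_ball_one haX) (ih ⟨s ++ [a], by rw [hs]; simp⟩)
      intro ha
      have h1 : cl (s ++ t) = ⊤ := by
        rw [← top_le_iff, ← hlc]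
        refine (Subgroup.closure_le _).2 ?_
        intro x hx
        have hx' : x ∈ s ++ a :: t := by rw [← hs]; exact hx
        simp only [List.mem_append, List.mem_cons] at hx'
        rcases hx' with h | rfl | h
        · exact mem_cl (by simp [h])
        · exact cl_mono (fun y hy => by simp [hy]) ha
        · exact mem_cl (by simp [h])
      have h2 := hmin (s ++ t) (fun x hx => hlX x (by
        rw [hs]
        simp only [List.mem_append, List.mem_cons] at hx ⊢
        tauto)) h1
      rw [hs] at h2
      simp at h2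
  have h3 := key l ⟨[], by simp⟩
  exact ⟨l, hlX, hlc, h3.lt_of_growth hX (by omega) hg⟩

/-- The walk attached to a nonempty list of generators. -/
noncomputable def listWalk (l : List G) (hl : 1 ≤ l.length) : Walk G where
  I := Option (Fin l.length × Bool)
  fI := inferInstance
  s := fun i => match i with
    | none => 1
    | some (j, true) => l.get j
    | some (j, false) => (l.get j)⁻¹
  p := fun i => match i with
    | none => 1 / 2
    | some _ => 1 / (4 * (l.length : ℝ))
  k := l.length
  inv := fun i => match i with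
    | none => none
    | some (j, b) => some (j, !b)
  i₀ := none
  k1 := by exact_mod_cast hl
  p_low := by
    have h1 : (1 : ℝ) ≤ l.length := by exact_mod_cast hl
    rintro (_ | ⟨j, b⟩)
    · show 1 / (4 * (l.length : ℝ)) ≤ 1 / 2
      apply one_div_le_one_div_of_le <;> linarith
    · exact le_refl _
  p_sum := by
    have h1 : (1 : ℝ) ≤ l.length := by exact_mod_cast hl
    rw [Fintype.sum_option]
    simp only [Finset.sum_const, Finset.card_univ, Fintype.card_prod, Fintype.card_fin,
      Fintype.card_bool, nsmul_eq_mul, Nat.cast_mul, Nat.cast_ofNat]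
    field_simp
    norm_num
  inv_inv := by
    rintro (_ | ⟨j, b⟩)
    · rfl
    · simp
  s_inv := by
    rintro (_ | ⟨j, _ | _⟩) <;> simp
  p_inv := by
    rintro (_ | ⟨j, b⟩) <;> rfl
  s_i₀ := rfl
  p_i₀ := le_refl _

theorem sel : Pool.Agent.Helper5.ST.SSel.{u} := by
  intro G _ _ X hX hc K hg
  obtain ⟨l, hlX, hlc, hlK⟩ := exists_short_list X hX hc K hg
  have hl : 1 ≤ l.length := by
    by_contra h
    have h1 : l = [] := List.eq_nil_of_length_eq_zero (by omega)
    rw [h1] at hlc
    have h2 : (⊥ : Subgroup G) = ⊤ := by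
      rw [← hlc]
      unfold cl
      simp
    obtain ⟨x, y, hxy⟩ := exists_pair_ne G
    have h3 : ∀ z : G, z = 1 := by
      intro z
      have : z ∈ (⊥ : Subgroup G) := by rw [h2]; trivial
      simpa using this
    exact hxy ((h3 x).trans (h3 y).symm)
  refine ⟨listWalk l hl, ?_, ?_, ?_⟩
  · rintro _ ⟨i, rfl⟩
    rcases i with _ | ⟨j, _ | _⟩
    · exact one_mem_ball 1
    · exact inv_mem_ball (mem_ball_one (hlX _ (List.get_mem l j)))
    · exact mem_ball_one (hlX _ (List.get_mem l j))
  · rw [← top_le_iff, ← hlc]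
    refine (Subgroup.closure_le _).2 ?_
    intro x hx
    obtain ⟨j, hj⟩ := List.get_of_mem hx
    refine Subgroup.subset_closure ⟨some (j, true), ?_⟩
    exact hj
  · show (l.length : ℝ) ≤ K
    exact_mod_cast hlK.le

end Pool.Agent.Helper47.ST
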