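import Pool.Agent.Helper5.ST.GoalsB
import Pool.Agent.Helper5.TL.Wrap

/-!
Packet LB: rational representations of a group with slow growth at one scale have virtually
nilpotent image, if the group is virtually solvable.
-/

namespace Pool.Agent.Helper47.ST

open Pool.Agent.Helper5.Gap Pool.Agent.Helper5.ST
open Pointwise Filter Topology

universe u

theorem algClosure_aux (F : Type*) [Field F] [CharZero F] (hF : ∀ x : F, ∃ q : ℚ, (q : F) = x) :
    FiniteDimensional ℚ (algebraicClosure ℚ F) ∧
      Module.finrank ℚ (algebraicClosure ℚ F) = 1 := by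
  have h1 : algebraicClosure ℚ F = ⊥ := by
    rw [eq_bot_iff]
    intro x _
    obtain ⟨q, rfl⟩ := hF x
    exact IntermediateField.mem_bot.2 ⟨q, by simp⟩
  rw [h1]
  have h2 : Module.finrank ℚ (⊥ : IntermediateField ℚ F) = 1 := IntermediateField.finrank_bot
  exact ⟨Module.finite_of_finrank_eq_succ h2, h2⟩

theorem lb : Pool.Agent.Helper5.ST.SLb.{u} := by
  classical
  intro H _ S hS hc hA D Φ K R hD hg hR
  have hS' : (S ∪ S⁻¹ ∪ {1}).Finite := (hS.union hS.inv).union (Set.finite_singleton 1)
  set T : Finset (GL (Fin D) ℚ) := hS'.toFinset.image Φ with hT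
  have hTmem : ∀ y, y ∈ T ↔ ∃ x, (x ∈ S ∨ x⁻¹ ∈ S ∨ x = 1) ∧ Φ x = y := by
    intro y
    simp only [hT, Finset.mem_image, Set.Finite.mem_toFinset, Set.mem_union, Set.mem_inv,
      Set.mem_singleton_iff, or_assoc]
  have hone : (1 : GL (Fin D) ℚ) ∈ T := (hTmem 1).2 ⟨1, Or.inr (Or.inr rfl), map_one Φ⟩
  have hclos : Subgroup.closure (T : Set (GL (Fin D) ℚ)) = Φ.range := by
    apply le_antisymm
    · refine (Subgroup.closure_le _).2 ?_
      intro y hy
      obtain ⟨x, _, rfl⟩ := (hTmem y).1 hy
      exact ⟨x, rfl⟩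
    · rintro _ ⟨x, rfl⟩
      have hx : x ∈ Subgroup.closure S := by rw [hc]; trivial
      induction hx using Subgroup.closure_induction with
      | mem x hx => exact Subgroup.subset_closure ((hTmem _).2 ⟨x, Or.inl hx, rfl⟩)
      | one => rw [map_one]; exact one_mem _
      | mul x y _ _ hx hy => rw [map_mul]; exact mul_mem hx hy
      | inv x _ hx => rw [map_inv]; exact inv_mem hx
  -- the image is virtually solvable
  have hsol : ∃ B : Subgroup Φ.range, B.FiniteIndex ∧ Group.IsSolvable B := by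
    obtain ⟨A, hA1, hA2⟩ := hA
    refine ⟨A.map Φ.rangeRestrict, ?_, ?_⟩
    · constructor
      intro h0
      have h1 := A.index_map_dvd Φ.rangeRestrict_surjective
      rw [h0] at h1
      exact hA1.index_ne_zero (zero_dvd_iff.1 h1)
    · have := hA2
      exact Group.isSolvable_of_surjective (Φ.rangeRestrict.subgroupMap_surjective A)
  have hsol' : ∃ B : Subgroup (Subgroup.closure (T : Set (GL (Fin D) ℚ))),
      B.FiniteIndex ∧ Group.IsSolvable B := by
    rw [hclos]
    exact hsol
  obtain ⟨ρ, hρ, hcase⟩ := Pool.Agent.Helper5.TL.final_char0 D T ⟨1, hone⟩ hsol'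
  rcases hcase with h | ⟨_, h⟩
  · rw [hclos] at h
    exact h
  exfalso
  obtain ⟨hfd, hfr⟩ := algClosure_aux ℚ (fun x => ⟨x, by simp⟩)
  have h1 := h hfd
  rw [hfr] at h1
  -- upper bound for the growth rate
  have hpow : ∀ n : ℕ, ∀ y ∈ T ^ n, ∃ x ∈ ball S n, Φ x = y := by
    intro n
    induction n with
    | zero =>
      intro y hy
      rw [pow_zero, Finset.mem_one] at hy
      exact ⟨1, one_mem_ball 0, by rw [hy, map_one]⟩
    | succ n ih =>
      intro y hy
      rw [pow_succ, Finset.mem_mul] at hy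
      obtain ⟨a, ha, b, hb, rfl⟩ := hy
      obtain ⟨x, hx, rfl⟩ := ih a ha
      obtain ⟨z, hz, rfl⟩ := (hTmem b).1 hb
      refine ⟨x * z, mul_mem_ball hx ?_, map_mul _ _ _⟩
      rcases hz with hz | hz | rfl
      · exact mem_ball_one hz
      · simpa using inv_mem_ball (mem_ball_one hz)
      · exact one_mem_ball 1
  have hcard : ∀ n : ℕ, (T ^ n).card ≤ growth S n := by
    intro n
    have h2 : T ^ n ⊆ (ball_finite hS n).toFinset.image Φ := by
      intro y hy
      obtain ⟨x, hx, rfl⟩ := hpow n y hy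
      exact Finset.mem_image_of_mem _ (by simpa using hx)
    refine (Finset.card_le_card h2).trans (Finset.card_image_le.trans ?_)
    unfold growth
    rw [Set.ncard_eq_toFinset_card _ (ball_finite hS n)]
  have hTR : (T ^ R).card < 2 ^ K := (hcard R).trans_lt hg
  have hK : 1 ≤ K := by
    rcases Nat.eq_zero_or_pos K with h0 | h0
    · rw [h0, pow_zero] at hg
      have := growth_pos hS R
      omega
    · exact h0
  have hRpos : 0 < R := by
    have : 0 < 33 * D ^ 6 * K := by positivity
    omega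
  have hTpos : ∀ n : ℕ, 1 ≤ (T ^ n).card := by
    intro n
    exact Finset.card_pos.2 (Finset.Nonempty.pow ⟨1, hone⟩)
  have hle : ρ ≤ Real.log ((T ^ R).card : ℝ) / R := by
    have h3 : Tendsto (fun n : ℕ => Real.log ((T ^ (R * n)).card : ℝ) / (R * n : ℕ)) atTop (𝓝 ρ) := by
      have h4 : Tendsto (fun n : ℕ => R * n) atTop atTop := by
        refine tendsto_atTop_mono (fun n => ?_) tendsto_id
        exact Nat.le_mul_of_pos_left n hRpos
      exact hρ.comp h4
    refine le_of_tendsto h3 ?_
    filter_upwards [eventually_ge_atTop 1] with n hn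
    have h5 : ((T ^ (R * n)).card : ℝ) ≤ ((T ^ R).card : ℝ) ^ n := by
      rw [pow_mul]
      exact_mod_cast Finset.card_pow_le
    have h6 : Real.log ((T ^ (R * n)).card : ℝ) ≤ n * Real.log ((T ^ R).card : ℝ) := by
      rw [← Real.log_pow]
      refine Real.log_le_log ?_ h5
      exact_mod_cast hTpos (R * n)
    have h7 : (0 : ℝ) < R := by exact_mod_cast hRpos
    have h8 : (0 : ℝ) < n := by exact_mod_cast hn
    rw [div_le_div_iff₀ (by push_cast; positivity) h7]
    push_cast
    calc Real.log ((T ^ (R * n)).card : ℝ) * R ≤ (n * Real.log ((T ^ R).card : ℝ)) * R :=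
          mul_le_mul_of_nonneg_right h6 h7.le
      _ = Real.log ((T ^ R).card : ℝ) * (R * n) := by ring
  have hlt : Real.log ((T ^ R).card : ℝ) < K * Real.log 2 := by
    rw [← Real.log_pow]
    refine Real.log_lt_log ?_ ?_
    · exact_mod_cast hTpos R
    · exact_mod_cast hTR
  have h7 : (0 : ℝ) < R := by exact_mod_cast hRpos
  have hDpos : (0 : ℝ) < 33 * (D : ℝ) ^ 6 := by positivity
  have h9 : (33 * (D : ℝ) ^ 6) * K ≤ R := by exact_mod_cast hR
  have h10 : Real.log 2 / (33 * D ^ 6) ≤ Real.log ((T ^ R).card : ℝ) / R := by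
    refine le_trans ?_ hle
    simpa using h1
  rw [div_le_div_iff₀ hDpos h7] at h10
  have hlog : 0 < Real.log 2 := Real.log_pos (by norm_num)
  have h11 : Real.log ((T ^ R).card : ℝ) * (33 * D ^ 6) < (K * Real.log 2) * (33 * D ^ 6) :=
    mul_lt_mul_of_pos_right hlt hDpos
  have h12 : Real.log 2 * ((33 * (D : ℝ) ^ 6) * K) ≤ Real.log 2 * R :=
    mul_le_mul_of_nonneg_left h9 hlog.le
  nlinarith

end Pool.Agent.Helper47.ST
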